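import Pool.Agent.helper73.SHL.Spec

/-! Row shl:CSB, from BND. -/

set_option autoImplicit false

namespace Pool.Agent.SHL

open Module

theorem CSB_pow {D : Type} [DivisionRing D] {k : ℕ} (M : Matrix (Fin k) (Fin k) D) (i : ℕ) :
    Matrix.toLinearMapRight' (M ^ i) = (Matrix.toLinearMapRight' M : Module.End D (Fin k → D)) ^ i := by
  induction i with
  | zero => rw [pow_zero, pow_zero, Matrix.toLinearMapRight'_one]; rfl
  | succ i ih =>
    rw [pow_succ, Matrix.toLinearMapRight'_mul, ih, pow_succ']
    rfl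

theorem CSB_int {D : Type} [DivisionRing D] {k : ℕ} {M : Matrix (Fin k) (Fin k) D}
    (h : IsIntegral ℤ M) :
    IsIntegral ℤ (Matrix.toLinearMapRight' M : Module.End D (Fin k → D)) := by
  obtain ⟨p, hp, he⟩ := h
  refine ⟨p, hp, ?_⟩
  have key : Polynomial.eval₂ (algebraMap ℤ (Module.End D (Fin k → D)))
      (Matrix.toLinearMapRight' M : Module.End D (Fin k → D)) p =
      Matrix.toLinearMapRight' (Polynomial.eval₂ (algebraMap ℤ (Matrix (Fin k) (Fin k) D)) M p) := by
    rw [Polynomial.eval₂_eq_sum_range, Polynomial.eval₂_eq_sum_range, map_sum]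
    refine Finset.sum_congr rfl fun i _ => ?_
    rw [← Algebra.smul_def, ← Algebra.smul_def, map_zsmul, CSB_pow]
  rw [key, he, map_zero]

theorem CSB (hBND : BND_stmt) : CSB_stmt := by
  intro D _ _ _ d k hc hd Q _ hQ φ hφ hint N hN
  let ρ : Q →* Module.End D (Fin k → D) :=
    { toFun := fun g => Matrix.toLinearMapRight' (φ g⁻¹)
      map_one' := by rw [inv_one, map_one, Matrix.toLinearMapRight'_one]; rfl
      map_mul' := fun g h => by
        rw [mul_inv_rev, map_mul, Matrix.toLinearMapRight'_mul]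
        rfl }
  have hρ : ∀ g, ρ g = Matrix.toLinearMapRight' (φ g⁻¹) := fun g => rfl
  have hinj : Function.Injective ρ := by
    intro g h hgh
    rw [hρ, hρ] at hgh
    exact inv_injective (hφ (Matrix.toLinearMapRight'.injective hgh))
  have h := hBND D d hc hd (Fin k → D) Q hQ ρ hinj (fun g => by rw [hρ]; exact CSB_int (hint g⁻¹))
    N hN
  rw [Module.finrank_fin_fun] at h
  exact h

end Pool.Agent.SHL
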